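import Mathlib
import Pool.Agent.Helper16.SemiDefs
import Pool.Agent.Helper16.SemiPoly

namespace Pool.Agent.Results.MP_8f4fb2_ag.SeminormalAllDims

open Pool.Agent.Helper16.Semi Pool.Agent.Helper16.SemiDefs

theorem result (d : ℕ) (_hd : 1 ≤ d) :
    ∃ (R K : Type) (_ : CommRing R) (_ : IsDomain R) (_ : Field K) (_ : Algebra R K),
      IsFractionRing R K ∧
      IsNoetherianRing R ∧
      ringKrullDim R = d ∧
      IsSeminormalIn R K ∧
      ∀ p : Ideal R, p.IsPrime → p.height = 1 → IsAnnihilatorInNormalizationQuotient R K p := by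
  have := countable_B d
  let K := FractionRing (MvPolynomial (Fin d) (FractionRing C0))
  let X : Datum (MvPolynomial (Fin d) (FractionRing C0)) K := (frame (FractionRing C0) d K).datum
  refine ⟨X.R, K, inferInstance, inferInstance, inferInstance, inferInstance, X.isFractionRing_R,
    X.isNoetherianRing_R, ?_, X.seminormal, ?_⟩
  · rw [X.ringKrullDim_R, MvPolynomial.ringKrullDim_of_isNoetherianRing,
      ringKrullDim_eq_zero_of_field]
    simp
  · intro p hp hh
    obtain ⟨m, hm, rfl⟩ := X.exists_z_of_height_one p hp hh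
    have hy : algebraMap _ K (X.P m * X.g (m + 1)) ∈ integralClosure X.R K :=
      X.isIntegral_algebraMap _
    refine ⟨Submodule.Quotient.mk ⟨_, hy⟩, fun r => ?_⟩
    rw [X.mem_comap_iff, ← Submodule.Quotient.mk_smul, Submodule.Quotient.mk_eq_zero,
      LinearMap.mem_range]
    constructor
    · intro h
      refine ⟨⟨_, h⟩, ?_⟩
      apply Subtype.ext
      change algebraMap _ K ((r : MvPolynomial (Fin d) (FractionRing C0)) * _) = _ * _
      rw [map_mul]
      rfl
    · rintro ⟨s, hs⟩
      have h1 := congrArg Subtype.val hs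
      change algebraMap _ K (s : MvPolynomial (Fin d) (FractionRing C0)) =
        algebraMap _ K (r : MvPolynomial (Fin d) (FractionRing C0)) * algebraMap _ K _ at h1
      rw [← map_mul] at h1
      rw [← FaithfulSMul.algebraMap_injective _ K h1]
      exact s.2

end Pool.Agent.Results.MP_8f4fb2_ag.SeminormalAllDims
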